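import Mathlib

set_option autoImplicit false

open Finset
open scoped Classical

namespace Pool.Agent.Q95.QC

variable {V : Type} [Fintype V] {K : Type} [Field K]

/-- convolution of set functions -/
noncomputable def conv (f g : Finset V → K) (S : Finset V) : K :=
  ∑ T ∈ S.powerset, f T * g (S \ T)

lemma conv_assoc (f g h : Finset V → K) (S : Finset V) :
    conv (conv f g) h S = conv f (conv g h) S := by
  unfold conv
  simp_rw [Finset.sum_mul, Finset.mul_sum]
  rw [Finset.sum_sigma', Finset.sum_sigma']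
  refine Finset.sum_nbij' (fun x => (⟨x.2, x.1 \ x.2⟩ : (_ : Finset V) × Finset V))
    (fun x => (⟨x.1 ∪ x.2, x.1⟩ : (_ : Finset V) × Finset V)) ?_ ?_ ?_ ?_ ?_
  · rintro ⟨T, U⟩ h1
    simp only [Finset.mem_sigma, Finset.mem_powerset] at h1 ⊢
    exact ⟨h1.2.trans h1.1, Finset.sdiff_subset_sdiff h1.1 (le_refl _)⟩
  · rintro ⟨U, Y⟩ h1
    simp only [Finset.mem_sigma, Finset.mem_powerset] at h1 ⊢
    exact ⟨Finset.union_subset h1.1 (h1.2.trans Finset.sdiff_subset), Finset.subset_union_left⟩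
  · rintro ⟨T, U⟩ h1
    simp only [Finset.mem_sigma, Finset.mem_powerset] at h1 ⊢
    rw [Finset.union_sdiff_of_subset h1.2]
  · rintro ⟨U, Y⟩ h1
    simp only [Finset.mem_sigma, Finset.mem_powerset] at h1 ⊢
    have : (U ∪ Y) \ U = Y := by
      ext x
      have := @h1.2 x
      simp only [Finset.mem_sdiff, Finset.mem_union] at this ⊢
      tauto
    rw [this]
  · rintro ⟨T, U⟩ h1
    simp only [Finset.mem_sigma, Finset.mem_powerset] at h1 ⊢
    have : (S \ U) \ (T \ U) = S \ T := by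
      ext x
      have := @h1.2 x
      simp only [Finset.mem_sdiff] at this ⊢
      tauto
    rw [this, mul_assoc]

lemma sum_split (S T : Finset V) (hT : T ⊆ S) (F G : Finset V → K) :
    ∑ J ∈ S.powerset, F (J ∩ T) * G (J ∩ (S \ T)) =
      (∑ J ∈ T.powerset, F J) * ∑ J ∈ (S \ T).powerset, G J := by
  rw [Finset.sum_mul_sum, ← Finset.sum_product']
  refine Finset.sum_nbij' (fun J => (J ∩ T, J ∩ (S \ T))) (fun x => x.1 ∪ x.2) ?_ ?_ ?_ ?_ ?_
  · intro J hJ
    simp only [Finset.mem_product, Finset.mem_powerset]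
    exact ⟨Finset.inter_subset_right, Finset.inter_subset_right⟩
  · rintro ⟨A, B⟩ h1
    simp only [Finset.mem_product, Finset.mem_powerset] at h1 ⊢
    exact Finset.union_subset (h1.1.trans hT) (h1.2.trans Finset.sdiff_subset)
  · intro J hJ
    simp only [Finset.mem_powerset] at hJ
    ext x
    have := @hJ x
    simp only [Finset.mem_union, Finset.mem_inter, Finset.mem_sdiff]
    tauto
  · rintro ⟨A, B⟩ h1
    simp only [Finset.mem_product, Finset.mem_powerset] at h1
    have h2 : (A ∪ B) ∩ T = A := by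
      ext x
      have h3 := @h1.1 x
      have h4 := @h1.2 x
      simp only [Finset.mem_union, Finset.mem_inter, Finset.mem_sdiff] at h4 ⊢
      tauto
    have h3 : (A ∪ B) ∩ (S \ T) = B := by
      ext x
      have h3 := @h1.1 x
      have h4 := @h1.2 x
      simp only [Finset.mem_union, Finset.mem_inter, Finset.mem_sdiff] at h4 ⊢
      tauto
    simp only [h2, h3]
  · intro J _
    rfl

/-- an acyclic orientation of the subgraph of `G` induced on `S` -/
def IsAO (G : SimpleGraph V) (S : Finset V) (D : Finset (V × V)) : Prop :=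
  (∀ u v, (u, v) ∈ D → G.Adj u v ∧ u ∈ S ∧ v ∈ S) ∧
  (∀ u v, G.Adj u v → u ∈ S → v ∈ S → (u, v) ∈ D ∨ (v, u) ∈ D) ∧
  ∃ f : V → ℕ, ∀ u v, (u, v) ∈ D → f u < f v

/-- the acyclic orientations -/
noncomputable def AO (G : SimpleGraph V) (S : Finset V) : Finset (Finset (V × V)) :=
  Finset.univ.filter (IsAO G S)

lemma mem_AO {G : SimpleGraph V} {S : Finset V} {D : Finset (V × V)} :
    D ∈ AO G S ↔ IsAO G S D := by simp [AO]

/-- restriction -/
noncomputable def res (D : Finset (V × V)) (T : Finset V) : Finset (V × V) :=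
  D.filter fun e => e.1 ∈ T ∧ e.2 ∈ T

lemma mem_res {D : Finset (V × V)} {T : Finset V} {u v : V} :
    (u, v) ∈ res D T ↔ (u, v) ∈ D ∧ u ∈ T ∧ v ∈ T := by simp [res]

/-- `T` is closed under predecessors in `S` -/
def Up (D : Finset (V × V)) (S T : Finset V) : Prop :=
  ∀ u v, (u, v) ∈ D → u ∈ S → v ∈ T → u ∈ T

/-- join of two orientations -/
noncomputable def jn (G : SimpleGraph V) (S T : Finset V) (D1 D2 : Finset (V × V)) :
    Finset (V × V) :=
  D1 ∪ D2 ∪ Finset.univ.filter fun e => e.1 ∈ T ∧ e.2 ∈ S \ T ∧ G.Adj e.1 e.2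

lemma mem_jn {G : SimpleGraph V} {S T : Finset V} {D1 D2 : Finset (V × V)} {u v : V} :
    (u, v) ∈ jn G S T D1 D2 ↔
      (u, v) ∈ D1 ∨ (u, v) ∈ D2 ∨ (u ∈ T ∧ (v ∈ S ∧ v ∉ T) ∧ G.Adj u v) := by
  simp [jn, or_assoc]

lemma ao_split (G : SimpleGraph V) (S T : Finset V) (hT : T ⊆ S)
    (F : Finset (V × V) → Finset (V × V) → K) :
    ∑ D ∈ (AO G S).filter (fun D => Up D S T), F (res D T) (res D (S \ T)) =
      ∑ D1 ∈ AO G T, ∑ D2 ∈ AO G (S \ T), F D1 D2 := by
  rw [← Finset.sum_product']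
  refine Finset.sum_nbij' (fun D => (res D T, res D (S \ T))) (fun x => jn G S T x.1 x.2)
    ?_ ?_ ?_ ?_ ?_
  · intro D hD
    rw [Finset.mem_filter, mem_AO] at hD
    obtain ⟨⟨h1, h2, f, hf⟩, h3⟩ := hD
    rw [Finset.mem_product, mem_AO, mem_AO]
    refine ⟨⟨?_, ?_, f, ?_⟩, ⟨?_, ?_, f, ?_⟩⟩
    · intro u v h
      obtain ⟨a, b, c⟩ := mem_res.1 h
      exact ⟨(h1 u v a).1, b, c⟩
    · intro u v h hu hv
      rcases h2 u v h (hT hu) (hT hv) with a | a
      · exact Or.inl (mem_res.2 ⟨a, hu, hv⟩)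
      · exact Or.inr (mem_res.2 ⟨a, hv, hu⟩)
    · intro u v h
      exact hf u v (mem_res.1 h).1
    · intro u v h
      obtain ⟨a, b, c⟩ := mem_res.1 h
      exact ⟨(h1 u v a).1, b, c⟩
    · intro u v h hu hv
      rcases h2 u v h (Finset.mem_sdiff.1 hu).1 (Finset.mem_sdiff.1 hv).1 with a | a
      · exact Or.inl (mem_res.2 ⟨a, hu, hv⟩)
      · exact Or.inr (mem_res.2 ⟨a, hv, hu⟩)
    · intro u v h
      exact hf u v (mem_res.1 h).1
  · rintro ⟨D1, D2⟩ hD
    rw [Finset.mem_product, mem_AO, mem_AO] at hD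
    obtain ⟨⟨h1, h2, f, hf⟩, ⟨k1, k2, g, hg⟩⟩ := hD
    dsimp only at h1 h2 hf k1 k2 hg ⊢
    rw [Finset.mem_filter, mem_AO]
    refine ⟨⟨?_, ?_, ?_⟩, ?_⟩
    · intro u v h
      rcases mem_jn.1 h with a | a | a
      · obtain ⟨x, y, z⟩ := h1 u v a
        exact ⟨x, hT y, hT z⟩
      · obtain ⟨x, y, z⟩ := k1 u v a
        exact ⟨x, (Finset.mem_sdiff.1 y).1, (Finset.mem_sdiff.1 z).1⟩
      · exact ⟨a.2.2, hT a.1, a.2.1.1⟩
    · intro u v h hu hv
      by_cases a : u ∈ T
      · by_cases b : v ∈ T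
        · rcases h2 u v h a b with c | c
          · exact Or.inl (mem_jn.2 (Or.inl c))
          · exact Or.inr (mem_jn.2 (Or.inl c))
        · exact Or.inl (mem_jn.2 (Or.inr (Or.inr ⟨a, ⟨hv, b⟩, h⟩)))
      · by_cases b : v ∈ T
        · exact Or.inr (mem_jn.2 (Or.inr (Or.inr ⟨b, ⟨hu, a⟩, h.symm⟩)))
        · rcases k2 u v h (Finset.mem_sdiff.2 ⟨hu, a⟩) (Finset.mem_sdiff.2 ⟨hv, b⟩) with c | c
          · exact Or.inl (mem_jn.2 (Or.inr (Or.inl c)))
          · exact Or.inr (mem_jn.2 (Or.inr (Or.inl c)))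
    · refine ⟨fun v => if v ∈ T then f v else g v + (Finset.univ.sup f + 1), ?_⟩
      intro u v h
      rcases mem_jn.1 h with a | a | a
      · obtain ⟨x, y, z⟩ := h1 u v a
        simp only [y, z, if_true]
        exact hf u v a
      · obtain ⟨x, y, z⟩ := k1 u v a
        simp only [(Finset.mem_sdiff.1 y).2, (Finset.mem_sdiff.1 z).2, if_false]
        have := hg u v a
        omega
      · simp only [a.1, a.2.1.2, if_true, if_false]
        have : f u ≤ Finset.univ.sup f := Finset.le_sup (Finset.mem_univ u)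
        omega
    · intro u v h hu hv
      rcases mem_jn.1 h with a | a | a
      · exact (h1 u v a).2.1
      · exact absurd hv (Finset.mem_sdiff.1 (k1 u v a).2.2).2
      · exact a.1
  · intro D hD
    rw [Finset.mem_filter, mem_AO] at hD
    obtain ⟨⟨h1, h2, f, hf⟩, h3⟩ := hD
    ext ⟨u, v⟩
    rw [mem_jn, mem_res, mem_res, Finset.mem_sdiff, Finset.mem_sdiff]
    constructor
    · rintro (a | a | a)
      · exact a.1
      · exact a.1
      · rcases h2 u v a.2.2 (hT a.1) a.2.1.1 with b | b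
        · exact b
        · exact absurd (h3 v u b a.2.1.1 a.1) a.2.1.2
    · intro h
      obtain ⟨a, b, c⟩ := h1 u v h
      have := h3 u v h b
      by_cases hu : u ∈ T
      · by_cases hv : v ∈ T
        · exact Or.inl ⟨h, hu, hv⟩
        · exact Or.inr (Or.inr ⟨hu, ⟨c, hv⟩, a⟩)
      · by_cases hv : v ∈ T
        · exact absurd (this hv) hu
        · exact Or.inr (Or.inl ⟨h, ⟨b, hu⟩, ⟨c, hv⟩⟩)
  · rintro ⟨D1, D2⟩ hD
    rw [Finset.mem_product, mem_AO, mem_AO] at hD
    obtain ⟨⟨h1, h2, f, hf⟩, ⟨k1, k2, g, hg⟩⟩ := hD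
    dsimp only at h1 h2 hf k1 k2 hg ⊢
    have e1 : res (jn G S T D1 D2) T = D1 := by
      ext ⟨u, v⟩
      rw [mem_res, mem_jn]
      constructor
      · rintro ⟨a | a | a, b, c⟩
        · exact a
        · exact absurd b (Finset.mem_sdiff.1 (k1 u v a).2.1).2
        · exact absurd c a.2.1.2
      · intro a
        exact ⟨Or.inl a, (h1 u v a).2⟩
    have e2 : res (jn G S T D1 D2) (S \ T) = D2 := by
      ext ⟨u, v⟩
      rw [mem_res, mem_jn]
      constructor
      · rintro ⟨a | a | a, b, c⟩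
        · exact absurd (h1 u v a).2.1 (Finset.mem_sdiff.1 b).2
        · exact a
        · exact absurd a.1 (Finset.mem_sdiff.1 b).2
      · intro a
        exact ⟨Or.inr (Or.inl a), (k1 u v a).2⟩
    rw [e1, e2]
  · intro D _
    rfl

end Pool.Agent.Q95.QC
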