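import Pool.Agent.Q95.QC.Main

set_option autoImplicit false

open scoped Classical

namespace Pool.Agent.Q95.QC

variable {V : Type} [Fintype V] {K : Type} [Field K]

/-- the polynomial -/
noncomputable def pol (q : K) (G : SimpleGraph V) : Polynomial K :=
  ∑ J ∈ (Finset.univ : Finset V).powerset,
    Polynomial.C (q ^ (Fintype.card V) * ((-1) ^ (Fintype.card V - J.card) * (1 - q) ^ J.card *
      Z q G J Finset.univ)) * Polynomial.X ^ J.card

lemma wt_eq (s : K) (J : Finset V) :
    wt s J Finset.univ = (-1) ^ (Fintype.card V - J.card) * s ^ J.card := by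
  unfold wt
  rw [← Finset.prod_sdiff (Finset.subset_univ J)]
  congr 1
  · rw [Finset.prod_congr rfl fun v hv => if_neg (Finset.mem_sdiff.1 hv).2, Finset.prod_const,
      Finset.card_sdiff_of_subset (Finset.subset_univ J), Finset.card_univ]
  · rw [Finset.prod_congr rfl fun v hv => if_pos hv, Finset.prod_const]

lemma pol_eval (q : K) (hq : ∀ k, 0 < k → q ^ k ≠ 1) (G : SimpleGraph V) (n : ℕ) :
    (pol q G).eval (qi q n) = q ^ (Fintype.card V) * X q G n Finset.univ := by
  rw [← R_eq_X q hq, R, pol, Polynomial.eval_finsetSum, Finset.mul_sum]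
  refine Finset.sum_congr rfl fun J _ => ?_
  rw [Polynomial.eval_mul, Polynomial.eval_C, Polynomial.eval_pow, Polynomial.eval_X, wt_eq,
    ← one_sub_mul_qi, mul_pow]
  ring

lemma pol_natDegree (q : K) (G : SimpleGraph V) : (pol q G).natDegree ≤ Fintype.card V := by
  rw [pol]
  apply Polynomial.natDegree_sum_le_of_forall_le
  intro J _
  exact (Polynomial.natDegree_C_mul_X_pow_le _ _).trans (Finset.card_le_univ J)

lemma pol_coeff (P : Subsemiring K) (q : K) (hqP : q ∈ P) (hq : ∀ k, 0 < k → q ^ k ≠ 1)
    (G : SimpleGraph V) (j : ℕ) :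
    (-1) ^ (Fintype.card V - j) * (qf q (Fintype.card V) * (pol q G).coeff j) ∈ P := by
  rw [pol, Polynomial.finset_sum_coeff, Finset.mul_sum, Finset.mul_sum]
  refine sum_mem fun J _ => ?_
  rw [Polynomial.coeff_C_mul, Polynomial.coeff_X_pow]
  by_cases h : j = J.card
  · rw [if_pos h, mul_one, h]
    have h1 : (-1 : K) ^ (Fintype.card V - J.card) *
        (qf q (Fintype.card V) * (q ^ (Fintype.card V) *
          ((-1) ^ (Fintype.card V - J.card) * (1 - q) ^ J.card *
            Z q G J Finset.univ))) =
        q ^ (Fintype.card V) * ∑ D ∈ AO G Finset.univ,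
          ((1 - q) ^ (Finset.univ ∩ J).card * qf q (Finset.univ : Finset V).card *
            W q D J Finset.univ) := by
      have h2 : ((-1 : K) ^ (Fintype.card V - J.card)) *
          (-1) ^ (Fintype.card V - J.card) = 1 := by
        rw [← mul_pow]; simp
      rw [← Finset.mul_sum, Finset.univ_inter, Finset.card_univ, Z]
      linear_combination (qf q (Fintype.card V) *
        q ^ (Fintype.card V) * (1 - q) ^ J.card *
          ∑ D ∈ AO G Finset.univ, W q D J Finset.univ) * h2
    rw [h1]
    refine mul_mem (pow_mem hqP _) (sum_mem fun D hD => ?_)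
    obtain ⟨_, _, f, hf⟩ := mem_AO.1 hD
    exact W_pos P _ hqP hq D J Finset.univ f hf
  · rw [if_neg h, mul_zero, mul_zero, mul_zero]
    exact zero_mem P

end Pool.Agent.Q95.QC
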