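import Pool.Agent.Q95.QC.Pos

set_option autoImplicit false

open Finset
open scoped Classical

namespace Pool.Agent.Q95.QC

variable {V : Type} [Fintype V] {K : Type} [Field K]

lemma W_congr (q : K) (D D' : Finset (V × V)) (J J' : Finset V) :
    ∀ (n : ℕ) (S : Finset V), S.card = n →
      (∀ u v, u ∈ S → v ∈ S → ((u, v) ∈ D ↔ (u, v) ∈ D')) → (∀ v, v ∈ S → (v ∈ J ↔ v ∈ J')) →
      W q D J S = W q D' J' S := by
  intro n
  induction n using Nat.strong_induction_on with
  | _ n ih =>
    intro S hn h1 h2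
    rw [W, W]
    by_cases hS : S = ∅
    · rw [if_pos hS, if_pos hS]
    · rw [if_neg hS, if_neg hS]
      congr 1
      refine Finset.sum_congr rfl ?_
      rintro ⟨T, hT⟩ _
      have hTS := Finset.mem_ssubsets.1 hT
      have h3 : Ok D J S T ↔ Ok D' J' S T := by
        unfold Ok Up
        constructor
        · rintro ⟨a, b⟩
          refine ⟨fun u v k1 k2 k3 => a u v ((h1 u v k2 (hTS.1 k3)).2 k1) k2 k3, ?_⟩
          intro v k1 k2 k3
          obtain ⟨u, l1, l2, l3⟩ := b v k1 k2 (fun h => k3 ((h2 v k1).1 h))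
          exact ⟨u, l1, l2, (h1 u v l1 k1).1 l3⟩
        · rintro ⟨a, b⟩
          refine ⟨fun u v k1 k2 k3 => a u v ((h1 u v k2 (hTS.1 k3)).1 k1) k2 k3, ?_⟩
          intro v k1 k2 k3
          obtain ⟨u, l1, l2, l3⟩ := b v k1 k2 (fun h => k3 ((h2 v k1).2 h))
          exact ⟨u, l1, l2, (h1 u v l1 k1).2 l3⟩
      have h4 := ih T.card (hn ▸ Finset.card_lt_card hTS) T rfl
        (fun u v k1 k2 => h1 u v (hTS.1 k1) (hTS.1 k2)) (fun v k1 => h2 v (hTS.1 k1))
      simp only [h3, h4]

/-- the sum over all acyclic orientations -/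
noncomputable def Z (q : K) (G : SimpleGraph V) (J S : Finset V) : K :=
  ∑ D ∈ AO G S, W q D J S

/-- all sources are in `J` -/
def Src (D : Finset (V × V)) (J H : Finset V) : Prop :=
  ∀ v, v ∈ H → v ∉ J → ∃ u, u ∈ H ∧ (u, v) ∈ D

/-- number of acyclic orientations with all sources in `J` -/
noncomputable def z (G : SimpleGraph V) (J H : Finset V) : K :=
  ∑ D ∈ AO G H, if Src D J H then 1 else 0

lemma Z_rec (q : K) (hq : ∀ k, 0 < k → q ^ k ≠ 1) (G : SimpleGraph V) (J S : Finset V) :
    Z q G J S = ∑ T ∈ S.powerset,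
      q ^ T.card * Z q G (J ∩ T) T * z (K := K) G (J ∩ (S \ T)) (S \ T) := by
  unfold Z
  rw [Finset.sum_congr rfl fun D _ => W_rec q hq D J S, Finset.sum_comm]
  refine Finset.sum_congr rfl fun T hT => ?_
  have hTS := Finset.mem_powerset.1 hT
  have h1 := ao_split G S T hTS (fun D1 D2 => q ^ T.card * W q D1 (J ∩ T) T *
    (if Src D2 (J ∩ (S \ T)) (S \ T) then (1 : K) else 0))
  have h2 : q ^ T.card * (∑ D ∈ AO G T, W q D (J ∩ T) T) *
      z (K := K) G (J ∩ (S \ T)) (S \ T) =
      ∑ D1 ∈ AO G T, ∑ D2 ∈ AO G (S \ T), q ^ T.card * W q D1 (J ∩ T) T *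
        (if Src D2 (J ∩ (S \ T)) (S \ T) then (1 : K) else 0) := by
    rw [z, mul_assoc, Finset.sum_mul_sum, Finset.mul_sum]
    refine Finset.sum_congr rfl fun D _ => ?_
    rw [Finset.mul_sum]
    refine Finset.sum_congr rfl fun D' _ => ?_
    ring
  rw [h2, ← h1, Finset.sum_filter]
  refine Finset.sum_congr rfl fun D _ => ?_
  have h3 : W q (res D T) (J ∩ T) T = W q D J T := by
    refine W_congr q _ _ _ _ T.card T rfl ?_ ?_
    · intro u v hu hv
      rw [mem_res]
      exact ⟨fun h => h.1, fun h => ⟨h, hu, hv⟩⟩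
    · intro v hv
      rw [Finset.mem_inter]
      exact ⟨fun h => h.1, fun h => ⟨h, hv⟩⟩
  rw [h3]
  by_cases h4 : Up D S T
  · rw [if_pos h4]
    have h5 : Ok D J S T ↔ Src (res D (S \ T)) (J ∩ (S \ T)) (S \ T) := by
      constructor
      · rintro ⟨_, b⟩ v k1 k2
        have k3 := Finset.mem_sdiff.1 k1
        obtain ⟨u, l1, l2, l3⟩ := b v k3.1 k3.2 (fun h => k2 (Finset.mem_inter.2 ⟨h, k1⟩))
        exact ⟨u, Finset.mem_sdiff.2 ⟨l1, l2⟩,
          mem_res.2 ⟨l3, Finset.mem_sdiff.2 ⟨l1, l2⟩, k1⟩⟩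
      · intro b
        refine ⟨h4, fun v k1 k2 k3 => ?_⟩
        obtain ⟨u, l1, l2⟩ := b v (Finset.mem_sdiff.2 ⟨k1, k2⟩)
          (fun h => k3 (Finset.mem_inter.1 h).1)
        exact ⟨u, (Finset.mem_sdiff.1 l1).1, (Finset.mem_sdiff.1 l1).2, (mem_res.1 l2).1⟩
    simp only [h5]
    split_ifs <;> ring
  · rw [if_neg h4, if_neg fun h => h4 h.1]

/-- the weights -/
noncomputable def wt (s : K) (J S : Finset V) : K := ∏ v ∈ S, if v ∈ J then s else -1

lemma wt_split (s : K) (J S T : Finset V) (hT : T ⊆ S) :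
    wt s J S = wt s (J ∩ T) T * wt s (J ∩ (S \ T)) (S \ T) := by
  unfold wt
  rw [← Finset.prod_sdiff hT, mul_comm]
  congr 1
  · refine Finset.prod_congr rfl fun v hv => ?_
    simp [hv]
  · refine Finset.prod_congr rfl fun v hv => ?_
    have : v ∈ J ∩ (S \ T) ↔ v ∈ J := by
      rw [Finset.mem_inter]
      exact ⟨fun h => h.1, fun h => ⟨h, hv⟩⟩
    simp only [this]

/-- the value at `s` -/
noncomputable def R (q : K) (G : SimpleGraph V) (s : K) (S : Finset V) : K :=
  ∑ J ∈ S.powerset, wt s J S * Z q G J S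

/-- the value at `s` -/
noncomputable def r (G : SimpleGraph V) (s : K) (S : Finset V) : K :=
  ∑ J ∈ S.powerset, wt s J S * z (K := K) G J S

lemma R_rec (q : K) (hq : ∀ k, 0 < k → q ^ k ≠ 1) (G : SimpleGraph V) (s : K) (S : Finset V) :
    R q G s S = conv (fun T => q ^ T.card * R q G s T) (r G s) S := by
  unfold R conv
  rw [Finset.sum_congr rfl fun J _ => by rw [Z_rec q hq G J S, Finset.mul_sum], Finset.sum_comm]
  refine Finset.sum_congr rfl fun T hT => ?_
  have hTS := Finset.mem_powerset.1 hT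
  have h1 := sum_split S T hTS (fun J => wt s J T * (q ^ T.card * Z q G J T))
    (fun J => wt s J (S \ T) * z (K := K) G J (S \ T))
  show _ = q ^ T.card * (∑ J ∈ T.powerset, wt s J T * Z q G J T) * r G s (S \ T)
  have h2 : q ^ T.card * (∑ J ∈ T.powerset, wt s J T * Z q G J T) =
      ∑ J ∈ T.powerset, wt s J T * (q ^ T.card * Z q G J T) := by
    rw [Finset.mul_sum]
    exact Finset.sum_congr rfl fun J _ => by ring
  rw [h2, r, ← h1]
  refine Finset.sum_congr rfl fun J _ => ?_
  rw [wt_split s J S T hTS]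
  ring


/-- indicator of independence -/
noncomputable def ind (G : SimpleGraph V) (S : Finset V) : K :=
  if ∀ u v, u ∈ S → v ∈ S → ¬ G.Adj u v then 1 else 0

/-- the number of acyclic orientations -/
noncomputable def ao (G : SimpleGraph V) (S : Finset V) : K := ∑ _D ∈ AO G S, 1

lemma AO_indep {G : SimpleGraph V} {S : Finset V} (h : ∀ u v, u ∈ S → v ∈ S → ¬ G.Adj u v) :
    AO G S = {∅} := by
  ext D
  rw [mem_AO, Finset.mem_singleton]
  constructor
  · rintro ⟨h1, _, _⟩
    rw [Finset.eq_empty_iff_forall_notMem]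
    rintro ⟨u, v⟩ h2
    obtain ⟨a, b, c⟩ := h1 u v h2
    exact h u v b c a
  · rintro rfl
    exact ⟨fun u v h1 => absurd h1 (Finset.notMem_empty _),
      fun u v h1 h2 h3 => absurd h1 (h u v h2 h3), fun _ => 0,
      fun u v h1 => absurd h1 (Finset.notMem_empty _)⟩

/-- the sources -/
noncomputable def srcs (D : Finset (V × V)) (H : Finset V) : Finset V :=
  H.filter fun v => ∀ u, u ∈ H → (u, v) ∉ D

lemma srcs_iff {G : SimpleGraph V} {H : Finset V} {D : Finset (V × V)} (hD : IsAO G H D)
    {C : Finset V} (hC : C ⊆ H) :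
    (Up D H C ∧ ∀ u v, u ∈ C → v ∈ C → ¬ G.Adj u v) ↔ C ⊆ srcs D H := by
  obtain ⟨h1, h2, f, hf⟩ := hD
  constructor
  · rintro ⟨a, b⟩ v hv
    rw [srcs, Finset.mem_filter]
    refine ⟨hC hv, fun u hu huv => ?_⟩
    exact b u v (a u v huv hu hv) hv (h1 u v huv).1
  · intro h
    have h3 : ∀ v, v ∈ C → ∀ u, u ∈ H → (u, v) ∉ D := fun v hv =>
      (Finset.mem_filter.1 (h hv)).2
    refine ⟨fun u v k1 k2 k3 => absurd k1 (h3 v k3 u k2), fun u v k1 k2 k3 => ?_⟩
    rcases h2 u v k3 (hC k1) (hC k2) with k4 | k4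
    · exact h3 v k2 u (hC k1) k4
    · exact h3 u k1 v (hC k2) k4

lemma prod_aux1 (s : K) (X H : Finset V) (hX : X ⊆ H) :
    ∑ J ∈ H.powerset, (if X ⊆ J then wt s J H else 0) = ∏ v ∈ H, if v ∈ X then s else s - 1 := by
  have h1 : ∀ v, (if v ∈ X then s else s - 1) = s + (if v ∈ X then 0 else -1) := by
    intro v
    split_ifs <;> ring
  rw [Finset.prod_congr rfl fun v _ => h1 v, Finset.prod_add]
  refine Finset.sum_congr rfl fun J hJ => ?_
  have hJH := Finset.mem_powerset.1 hJ
  by_cases h2 : X ⊆ J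
  · rw [if_pos h2, wt, ← Finset.prod_sdiff hJH, mul_comm]
    congr 1
    · exact Finset.prod_congr rfl fun v hv => if_pos hv
    · refine Finset.prod_congr rfl fun v hv => ?_
      rw [if_neg (Finset.mem_sdiff.1 hv).2, if_neg fun h => (Finset.mem_sdiff.1 hv).2 (h2 h)]
  · rw [if_neg h2]
    obtain ⟨v, hv, hvJ⟩ := Finset.not_subset.1 h2
    have h3 : ∏ v ∈ H \ J, (if v ∈ X then (0 : K) else -1) = 0 :=
      Finset.prod_eq_zero (Finset.mem_sdiff.2 ⟨hX hv, hvJ⟩) (if_pos hv)
    rw [h3, mul_zero]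

lemma prod_aux2 (s : K) (X H : Finset V) (hX : X ⊆ H) :
    ∑ C ∈ H.powerset, (if C ⊆ X then (s - 1) ^ (H \ C).card else 0) =
      ∏ v ∈ H, if v ∈ X then s else s - 1 := by
  have h1 : ∀ v, (if v ∈ X then s else s - 1) = (if v ∈ X then 1 else 0) + (s - 1) := by
    intro v
    split_ifs <;> ring
  rw [Finset.prod_congr rfl fun v _ => h1 v, Finset.prod_add]
  refine Finset.sum_congr rfl fun C hC => ?_
  rw [Finset.prod_const]
  by_cases h2 : C ⊆ X
  · rw [if_pos h2, Finset.prod_congr rfl fun v hv => if_pos (h2 hv), Finset.prod_const_one, one_mul]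
  · rw [if_neg h2]
    obtain ⟨v, hv, hvX⟩ := Finset.not_subset.1 h2
    rw [Finset.prod_eq_zero hv (if_neg hvX), zero_mul]

lemma r_eq_prod (G : SimpleGraph V) (s : K) (H : Finset V) :
    r G s H = ∑ D ∈ AO G H, ∏ v ∈ H, if v ∈ srcs D H then s else s - 1 := by
  unfold r z
  rw [Finset.sum_congr rfl fun J _ => Finset.mul_sum _ _ _, Finset.sum_comm]
  refine Finset.sum_congr rfl fun D hD => ?_
  rw [← prod_aux1 s (srcs D H) H (Finset.filter_subset _ _)]
  refine Finset.sum_congr rfl fun J _ => ?_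
  have h : Src D J H ↔ srcs D H ⊆ J := by
    constructor
    · intro a v hv
      rw [srcs, Finset.mem_filter] at hv
      by_contra hJ
      obtain ⟨u, hu, huv⟩ := a v hv.1 hJ
      exact hv.2 u hu huv
    · intro a v hv hvJ
      by_contra hcon
      push Not at hcon
      exact hvJ (a (Finset.mem_filter.2 ⟨hv, fun u hu => hcon u hu⟩))
  simp only [h]
  split_ifs <;> ring

lemma r_conv (G : SimpleGraph V) (s : K) (H : Finset V) :
    r G s H = conv (ind G) (fun T => (s - 1) ^ T.card * ao G T) H := by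
  rw [r_eq_prod, conv]
  have h1 : ∀ C ∈ H.powerset, ind (K := K) G C * ((s - 1) ^ (H \ C).card * ao G (H \ C)) =
      ∑ D ∈ AO G H, if C ⊆ srcs D H then (s - 1) ^ (H \ C).card else 0 := by
    intro C hC
    have hCH := Finset.mem_powerset.1 hC
    by_cases hi : ∀ u v, u ∈ C → v ∈ C → ¬ G.Adj u v
    · rw [ind, if_pos hi, one_mul, ao, Finset.mul_sum]
      have h2 := ao_split G H C hCH (fun _ _ => (s - 1) ^ (H \ C).card)
      rw [AO_indep hi, Finset.sum_singleton] at h2
      simp only [mul_one]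
      rw [← h2, Finset.sum_filter]
      refine Finset.sum_congr rfl fun D hD => ?_
      have h3 := srcs_iff (mem_AO.1 hD) hCH
      have h4 : Up D H C ↔ C ⊆ srcs D H := by
        rw [← h3]; exact ⟨fun h => ⟨h, hi⟩, fun h => h.1⟩
      simp only [h4]
    · rw [ind, if_neg hi, zero_mul, eq_comm]
      refine Finset.sum_eq_zero fun D hD => ?_
      have h3 := srcs_iff (mem_AO.1 hD) hCH
      rw [if_neg fun h => hi (h3.2 h).2]
  rw [Finset.sum_congr rfl h1, Finset.sum_comm]
  refine Finset.sum_congr rfl fun D _ => ?_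
  rw [prod_aux2 s (srcs D H) H (Finset.filter_subset _ _)]

lemma r_zero (G : SimpleGraph V) (H : Finset V) :
    r (K := K) G 0 H = if H = ∅ then 1 else 0 := by
  rw [r_eq_prod]
  by_cases hH : H = ∅
  · subst hH
    rw [if_pos rfl, AO_indep (by simp)]
    simp
  · rw [if_neg hH]
    refine Finset.sum_eq_zero fun D hD => ?_
    obtain ⟨_, _, f, hf⟩ := mem_AO.1 hD
    obtain ⟨v, hv, hvmin⟩ := Finset.exists_min_image H f (Finset.nonempty_iff_ne_empty.2 hH)
    refine Finset.prod_eq_zero hv (if_pos ?_)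
    rw [srcs, Finset.mem_filter]
    refine ⟨hv, fun u hu huv => ?_⟩
    have := hvmin u hu
    have := hf u v huv
    omega

lemma conv_scale (u : K) (f g : Finset V → K) (S : Finset V) :
    conv (fun T => u ^ T.card * f T) (fun T => u ^ T.card * g T) S = u ^ S.card * conv f g S := by
  unfold conv
  rw [Finset.mul_sum]
  refine Finset.sum_congr rfl fun T hT => ?_
  have h1 := Finset.card_sdiff_add_card_eq_card (Finset.mem_powerset.1 hT)
  rw [← h1, pow_add]
  ring

lemma conv_congr {f f' g g' : Finset V → K} (h1 : ∀ S, f S = f' S) (h2 : ∀ S, g S = g' S)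
    (S : Finset V) : conv f g S = conv f' g' S := by
  rw [funext h1, funext h2]

lemma conv_delta (f : Finset V → K) (S : Finset V) :
    conv f (fun T => if T = ∅ then 1 else 0) S = f S := by
  unfold conv
  rw [Finset.sum_eq_single S]
  · simp
  · intro T hT hne
    have : S \ T ≠ ∅ := fun h =>
      hne (Finset.Subset.antisymm (Finset.mem_powerset.1 hT) (Finset.sdiff_eq_empty_iff_subset.1 h))
    simp [this]
  · intro h
    exact absurd (Finset.mem_powerset_self S) h

lemma uniq (q : K) (hq : ∀ k, 0 < k → q ^ k ≠ 1) (f g h : Finset V → K) (hh : h ∅ = 1)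
    (hf : ∀ S, f S = conv (fun T => q ^ T.card * f T) h S)
    (hg : ∀ S, g S = conv (fun T => q ^ T.card * g T) h S) (h0 : f ∅ = g ∅) :
    ∀ (n : ℕ) (S : Finset V), S.card = n → f S = g S := by
  intro n
  induction n using Nat.strong_induction_on with
  | _ n ih =>
    intro S hn
    by_cases hS : S = ∅
    · rw [hS, h0]
    · have hpos : 0 < S.card := Finset.card_pos.2 (Finset.nonempty_iff_ne_empty.2 hS)
      have hne : (1 - q ^ S.card) ≠ 0 := fun h => hq S.card hpos (sub_eq_zero.1 h).symm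
      have h1 := hf S
      have h2 := hg S
      unfold conv at h1 h2
      rw [← Finset.add_sum_erase _ _ (Finset.mem_powerset_self S), Finset.sdiff_self, hh] at h1 h2
      have h3 : ∑ x ∈ S.powerset.erase S, q ^ x.card * f x * h (S \ x) =
          ∑ x ∈ S.powerset.erase S, q ^ x.card * g x * h (S \ x) := by
        refine Finset.sum_congr rfl fun T hT => ?_
        rw [Finset.mem_erase, Finset.mem_powerset] at hT
        rw [ih T.card (hn ▸ Finset.card_lt_card (hT.2.ssubset_of_ne hT.1)) T rfl]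
      rw [h3] at h1
      apply mul_left_cancel₀ hne
      linear_combination h1 - h2

/-- proper colourings of `S` with colours less than `n`, extended by `0` -/
noncomputable def Col (G : SimpleGraph V) (n : ℕ) (S : Finset V) : Finset (V → ℕ) :=
  (Fintype.piFinset fun v => if v ∈ S then Finset.range n else {0}).filter
    fun c => ∀ u v, G.Adj u v → u ∈ S → v ∈ S → c u ≠ c v

lemma mem_Col {G : SimpleGraph V} {n : ℕ} {S : Finset V} {c : V → ℕ} :
    c ∈ Col G n S ↔ (∀ v, v ∈ S → c v < n) ∧ (∀ v, v ∉ S → c v = 0) ∧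
      ∀ u v, G.Adj u v → u ∈ S → v ∈ S → c u ≠ c v := by
  rw [Col, Finset.mem_filter, Fintype.mem_piFinset]
  constructor
  · rintro ⟨h1, h2⟩
    refine ⟨fun v hv => ?_, fun v hv => ?_, h2⟩
    · have := h1 v
      rw [if_pos hv, Finset.mem_range] at this
      exact this
    · have := h1 v
      rw [if_neg hv, Finset.mem_singleton] at this
      exact this
  · rintro ⟨h1, h2, h3⟩
    refine ⟨fun v => ?_, h3⟩
    by_cases hv : v ∈ S
    · rw [if_pos hv, Finset.mem_range]; exact h1 v hv
    · rw [if_neg hv, Finset.mem_singleton]; exact h2 v hv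

/-- the sum over the colourings of `S` -/
noncomputable def X (q : K) (G : SimpleGraph V) (n : ℕ) (S : Finset V) : K :=
  ∑ c ∈ Col G n S, q ^ (∑ v ∈ S, c v)

lemma X_last (q : K) (G : SimpleGraph V) (n : ℕ) (S : Finset V) :
    X q G (n + 1) S = conv (X q G n) (fun T => (q ^ n) ^ T.card * ind G T) S := by
  have h1 : conv (X q G n) (fun T => (q ^ n) ^ T.card * ind G T) S =
      ∑ x ∈ (S.powerset.filter fun T => ∀ u v, u ∈ S \ T → v ∈ S \ T → ¬ G.Adj u v).sigma
        (fun T => Col G n T), q ^ (∑ v ∈ x.1, x.2 v) * (q ^ n) ^ (S \ x.1).card := by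
    rw [conv, Finset.sum_sigma, Finset.sum_filter]
    refine Finset.sum_congr rfl fun T _ => ?_
    rw [ind, X]
    split_ifs
    · rw [mul_one, Finset.sum_mul]
    · ring
  rw [h1, X]
  refine Finset.sum_nbij' (fun c => (⟨S.filter fun v => c v < n,
      fun v => if v ∈ S ∧ c v < n then c v else 0⟩ : (_ : Finset V) × (V → ℕ)))
    (fun x v => if v ∈ x.1 then x.2 v else if v ∈ S then n else 0) ?_ ?_ ?_ ?_ ?_
  · intro c hc
    rw [mem_Col] at hc
    obtain ⟨a, b, d⟩ := hc
    rw [Finset.mem_sigma, Finset.mem_filter, Finset.mem_powerset, mem_Col]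
    refine ⟨⟨Finset.filter_subset _ _, ?_⟩, ?_, ?_, ?_⟩
    · intro u v hu hv huv
      rw [Finset.mem_sdiff, Finset.mem_filter] at hu hv
      have h2 := a u hu.1
      have h3 := a v hv.1
      have h4 : ¬ c u < n := fun h => hu.2 ⟨hu.1, h⟩
      have h5 : ¬ c v < n := fun h => hv.2 ⟨hv.1, h⟩
      exact d u v huv hu.1 hv.1 (by omega)
    · intro v hv
      have hv' := Finset.mem_filter.1 hv
      show (if v ∈ S ∧ c v < n then c v else 0) < n
      rw [if_pos hv']
      exact hv'.2
    · intro v hv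
      show (if v ∈ S ∧ c v < n then c v else 0) = 0
      rw [if_neg fun h => hv (Finset.mem_filter.2 h)]
    · intro u v huv hu hv
      have hu' := Finset.mem_filter.1 hu
      have hv' := Finset.mem_filter.1 hv
      show (if u ∈ S ∧ c u < n then c u else 0) ≠ (if v ∈ S ∧ c v < n then c v else 0)
      rw [if_pos hu', if_pos hv']
      exact d u v huv hu'.1 hv'.1
  · rintro ⟨T, c⟩ hx
    rw [Finset.mem_sigma, Finset.mem_filter, Finset.mem_powerset] at hx
    obtain ⟨⟨hT, hi⟩, hc⟩ := hx
    dsimp only at hT hi hc ⊢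
    rw [mem_Col] at hc
    obtain ⟨a, b, d⟩ := hc
    rw [mem_Col]
    refine ⟨?_, ?_, ?_⟩
    · intro v hv
      by_cases h : v ∈ T
      · rw [if_pos h]; have := a v h; omega
      · rw [if_neg h, if_pos hv]; omega
    · intro v hv
      rw [if_neg fun h => hv (hT h), if_neg hv]
    · intro u v huv hu hv
      by_cases h : u ∈ T
      · by_cases h' : v ∈ T
        · rw [if_pos h, if_pos h']; exact d u v huv h h'
        · rw [if_pos h, if_neg h', if_pos hv]; have := a u h; omega
      · by_cases h' : v ∈ T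
        · rw [if_neg h, if_pos hu, if_pos h']; have := a v h'; omega
        · exact absurd huv (hi u v (Finset.mem_sdiff.2 ⟨hu, h⟩) (Finset.mem_sdiff.2 ⟨hv, h'⟩))
  · intro c hc
    rw [mem_Col] at hc
    obtain ⟨a, b, d⟩ := hc
    funext v
    dsimp only
    by_cases hv : v ∈ S
    · by_cases h : c v < n
      · rw [if_pos (Finset.mem_filter.2 ⟨hv, h⟩), if_pos ⟨hv, h⟩]
      · have h' : v ∉ S.filter (fun v => c v < n) := fun h' => h (Finset.mem_filter.1 h').2
        rw [if_neg h', if_pos hv]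
        have := a v hv
        omega
    · have h' : v ∉ S.filter (fun v => c v < n) := fun h' => hv (Finset.mem_filter.1 h').1
      rw [if_neg h', if_neg hv, b v hv]
  · rintro ⟨T, c⟩ hx
    rw [Finset.mem_sigma, Finset.mem_filter, Finset.mem_powerset] at hx
    obtain ⟨⟨hT, hi⟩, hc⟩ := hx
    dsimp only at hT hi hc ⊢
    rw [mem_Col] at hc
    obtain ⟨a, b, d⟩ := hc
    have e1 : ∀ v, (v ∈ S ∧ (if v ∈ T then c v else if v ∈ S then n else 0) < n) ↔ v ∈ T := by
      intro v
      by_cases h : v ∈ T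
      · rw [if_pos h]
        exact ⟨fun _ => h, fun _ => ⟨hT h, a v h⟩⟩
      · rw [if_neg h]
        constructor
        · rintro ⟨k1, k2⟩
          rw [if_pos k1] at k2
          omega
        · exact fun k => absurd k h
    have e2 : (S.filter fun v => (if v ∈ T then c v else if v ∈ S then n else 0) < n) = T := by
      ext v
      rw [Finset.mem_filter]
      exact e1 v
    have e3 : (fun v => if v ∈ S ∧ (if v ∈ T then c v else if v ∈ S then n else 0) < n then
        (if v ∈ T then c v else if v ∈ S then n else 0) else 0) = c := by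
      funext v
      simp only [e1 v]
      by_cases h : v ∈ T
      · rw [if_pos h, if_pos h]
      · rw [if_neg h, b v h]
    rw [e2, e3]
  · intro c hc
    rw [mem_Col] at hc
    obtain ⟨a, b, d⟩ := hc
    dsimp only
    rw [← pow_mul, ← pow_add]
    congr 1
    rw [← Finset.sum_filter_add_sum_filter_not S (fun v => c v < n)]
    congr 1
    · refine Finset.sum_congr rfl fun v hv => ?_
      rw [if_pos (Finset.mem_filter.1 hv)]
    · have e1 : S.filter (fun v => ¬ c v < n) = S \ S.filter (fun v => c v < n) := by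
        ext v
        simp only [Finset.mem_filter, Finset.mem_sdiff]
        tauto
      rw [← e1, Finset.sum_congr rfl (g := fun _ => n), Finset.sum_const, smul_eq_mul, mul_comm]
      intro v hv
      rw [Finset.mem_filter] at hv
      have := a v hv.1
      omega

lemma X_first (q : K) (G : SimpleGraph V) (n : ℕ) (S : Finset V) :
    X q G (n + 1) S = conv (fun T => q ^ T.card * X q G n T) (ind G) S := by
  have h1 : conv (fun T => q ^ T.card * X q G n T) (ind G) S =
      ∑ x ∈ (S.powerset.filter fun T => ∀ u v, u ∈ S \ T → v ∈ S \ T → ¬ G.Adj u v).sigma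
        (fun T => Col G n T), q ^ x.1.card * q ^ (∑ v ∈ x.1, x.2 v) := by
    rw [conv, Finset.sum_sigma, Finset.sum_filter]
    refine Finset.sum_congr rfl fun T _ => ?_
    rw [ind, X]
    split_ifs
    · rw [mul_one, Finset.mul_sum]
    · ring
  rw [h1, X]
  refine Finset.sum_nbij' (fun c => (⟨S.filter fun v => 0 < c v,
      fun v => c v - 1⟩ : (_ : Finset V) × (V → ℕ)))
    (fun x v => if v ∈ x.1 then x.2 v + 1 else 0) ?_ ?_ ?_ ?_ ?_
  · intro c hc
    rw [mem_Col] at hc
    obtain ⟨a, b, d⟩ := hc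
    rw [Finset.mem_sigma, Finset.mem_filter, Finset.mem_powerset, mem_Col]
    refine ⟨⟨Finset.filter_subset _ _, ?_⟩, ?_, ?_, ?_⟩
    · intro u v hu hv huv
      rw [Finset.mem_sdiff, Finset.mem_filter] at hu hv
      have h4 : ¬ 0 < c u := fun h => hu.2 ⟨hu.1, h⟩
      have h5 : ¬ 0 < c v := fun h => hv.2 ⟨hv.1, h⟩
      exact d u v huv hu.1 hv.1 (by omega)
    · intro v hv
      have hv' := Finset.mem_filter.1 hv
      show c v - 1 < n
      have := a v hv'.1
      have := hv'.2
      omega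
    · intro v hv
      show c v - 1 = 0
      by_cases h : v ∈ S
      · have : ¬ 0 < c v := fun h' => hv (Finset.mem_filter.2 ⟨h, h'⟩)
        omega
      · rw [b v h]
    · intro u v huv hu hv
      have hu' := Finset.mem_filter.1 hu
      have hv' := Finset.mem_filter.1 hv
      show c u - 1 ≠ c v - 1
      have := d u v huv hu'.1 hv'.1
      have := hu'.2
      have := hv'.2
      omega
  · rintro ⟨T, c⟩ hx
    rw [Finset.mem_sigma, Finset.mem_filter, Finset.mem_powerset] at hx
    obtain ⟨⟨hT, hi⟩, hc⟩ := hx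
    dsimp only at hT hi hc ⊢
    rw [mem_Col] at hc
    obtain ⟨a, b, d⟩ := hc
    rw [mem_Col]
    refine ⟨?_, ?_, ?_⟩
    · intro v hv
      by_cases h : v ∈ T
      · rw [if_pos h]; have := a v h; omega
      · rw [if_neg h]; omega
    · intro v hv
      rw [if_neg fun h => hv (hT h)]
    · intro u v huv hu hv
      by_cases h : u ∈ T
      · by_cases h' : v ∈ T
        · rw [if_pos h, if_pos h']; have := d u v huv h h'; omega
        · rw [if_pos h, if_neg h']; omega
      · by_cases h' : v ∈ T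
        · rw [if_neg h, if_pos h']; omega
        · exact absurd huv (hi u v (Finset.mem_sdiff.2 ⟨hu, h⟩) (Finset.mem_sdiff.2 ⟨hv, h'⟩))
  · intro c hc
    rw [mem_Col] at hc
    obtain ⟨a, b, d⟩ := hc
    funext v
    dsimp only
    by_cases hv : v ∈ S
    · by_cases h : 0 < c v
      · rw [if_pos (Finset.mem_filter.2 ⟨hv, h⟩)]; omega
      · have h' : v ∉ S.filter (fun v => 0 < c v) := fun h' => h (Finset.mem_filter.1 h').2
        rw [if_neg h']; omega
    · have h' : v ∉ S.filter (fun v => 0 < c v) := fun h' => hv (Finset.mem_filter.1 h').1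
      rw [if_neg h', b v hv]
  · rintro ⟨T, c⟩ hx
    rw [Finset.mem_sigma, Finset.mem_filter, Finset.mem_powerset] at hx
    obtain ⟨⟨hT, hi⟩, hc⟩ := hx
    dsimp only at hT hi hc ⊢
    rw [mem_Col] at hc
    obtain ⟨a, b, d⟩ := hc
    have e2 : (S.filter fun v => 0 < (if v ∈ T then c v + 1 else 0)) = T := by
      ext v
      rw [Finset.mem_filter]
      by_cases h : v ∈ T
      · rw [if_pos h]
        exact ⟨fun _ => h, fun _ => ⟨hT h, by omega⟩⟩
      · rw [if_neg h]
        exact ⟨fun k => absurd k.2 (by omega), fun k => absurd k h⟩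
    have e3 : (fun v => (if v ∈ T then c v + 1 else 0) - 1) = c := by
      funext v
      by_cases h : v ∈ T
      · rw [if_pos h]; omega
      · rw [if_neg h, b v h]
    rw [e2, e3]
  · intro c hc
    rw [mem_Col] at hc
    obtain ⟨a, b, d⟩ := hc
    dsimp only
    rw [← pow_add]
    congr 1
    rw [← Finset.sum_filter_add_sum_filter_not S (fun v => 0 < c v),
      Finset.sum_eq_zero (s := S.filter fun v => ¬ 0 < c v), add_zero, Finset.card_eq_sum_ones,
      ← Finset.sum_add_distrib]
    · refine Finset.sum_congr rfl fun v hv => ?_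
      have := (Finset.mem_filter.1 hv).2
      omega
    · intro v hv
      have := (Finset.mem_filter.1 hv).2
      omega

lemma X_empty (q : K) (G : SimpleGraph V) (n : ℕ) : X q G n ∅ = 1 := by
  have h : Col G n ∅ = {fun _ => 0} := by
    ext c
    rw [mem_Col, Finset.mem_singleton]
    constructor
    · rintro ⟨_, b, _⟩
      funext v
      exact b v (Finset.notMem_empty v)
    · rintro rfl
      simp
  rw [X, h]
  simp

lemma R_empty (q : K) (G : SimpleGraph V) (s : K) : R q G s ∅ = 1 := by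
  rw [R, Finset.powerset_empty, Finset.sum_singleton, Z, AO_indep (by simp), wt]
  simp [W_empty]

lemma X_rec (q : K) (G : SimpleGraph V) (n : ℕ) (S : Finset V) :
    X q G n S = conv (fun T => q ^ T.card * X q G n T) (r G (1 - q ^ n)) S := by
  have h1 : ∀ S, r G (1 - q ^ n) S =
      conv (ind G) (fun T => (q ^ n) ^ T.card * ((0 - 1 : K) ^ T.card * ao G T)) S := by
    intro S
    rw [r_conv]
    refine conv_congr (fun _ => rfl) (fun T => ?_) S
    rw [← mul_assoc, ← mul_pow]
    congr 2
    ring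
  rw [conv_congr (fun _ => rfl) h1, ← conv_assoc, conv_congr (fun S => (X_first q G n S).symm)
    (fun _ => rfl), conv_congr (fun S => X_last q G n S) (fun _ => rfl), conv_assoc,
    conv_congr (fun _ => rfl) (fun S => conv_scale (q ^ n) (ind G)
      (fun T => (0 - 1 : K) ^ T.card * ao G T) S)]
  have h2 : ∀ S, (q ^ n) ^ S.card * conv (ind G) (fun T => (0 - 1 : K) ^ T.card * ao G T) S =
      if S = ∅ then 1 else 0 := by
    intro S
    rw [← r_conv G 0 S, r_zero]
    by_cases h : S = ∅
    · subst h; simp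
    · rw [if_neg h, mul_zero]
  rw [conv_congr (fun _ => rfl) h2, conv_delta]

theorem R_eq_X (q : K) (hq : ∀ k, 0 < k → q ^ k ≠ 1) (G : SimpleGraph V) (n : ℕ)
    (S : Finset V) : R q G (1 - q ^ n) S = X q G n S := by
  refine uniq q hq _ _ (r G (1 - q ^ n)) ?_ (fun S => R_rec q hq G _ S)
    (fun S => X_rec q G n S) ?_ S.card S rfl
  · rw [r_eq_prod, AO_indep (by simp)]
    simp
  · rw [R_empty, X_empty]

end Pool.Agent.Q95.QC
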