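import Pool.Agent.Q95.QC.Basic

set_option autoImplicit false

open Finset
open scoped Classical

namespace Pool.Agent.Q95.QC

variable {V : Type} {K : Type} [Field K]

/-- the condition of the recursion -/
def Ok (D : Finset (V × V)) (J S T : Finset V) : Prop :=
  Up D S T ∧ ∀ v, v ∈ S → v ∉ T → v ∉ J → ∃ u, u ∈ S ∧ u ∉ T ∧ (u, v) ∈ D

lemma ok_self (D : Finset (V × V)) (J S : Finset V) : Ok D J S S :=
  ⟨fun _ _ _ hu _ => hu, fun _ h1 h2 => absurd h1 h2⟩

/-- the generating function of one acyclic orientation -/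
noncomputable def W (q : K) (D : Finset (V × V)) (J : Finset V) (S : Finset V) : K :=
  if S = ∅ then 1 else (1 - q ^ S.card)⁻¹ *
    ∑ T ∈ S.ssubsets.attach, if Ok D J S T.1 then q ^ T.1.card * W q D J T.1 else 0
termination_by S.card
decreasing_by exact Finset.card_lt_card (Finset.mem_ssubsets.1 T.2)

lemma W_empty (q : K) (D : Finset (V × V)) (J : Finset V) : W q D J ∅ = 1 := by
  rw [W]; simp

lemma W_ne (q : K) (hq : ∀ k, 0 < k → q ^ k ≠ 1) (D : Finset (V × V)) (J S : Finset V)
    (hS : S ≠ ∅) : (1 - q ^ S.card) * W q D J S =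
      ∑ T ∈ S.ssubsets, if Ok D J S T then q ^ T.card * W q D J T else 0 := by
  rw [W, if_neg hS, ← mul_assoc, mul_inv_cancel₀, one_mul]
  · exact Finset.sum_attach S.ssubsets (fun T => if Ok D J S T then q ^ T.card * W q D J T else 0)
  · intro h
    exact hq S.card (Finset.card_pos.2 (Finset.nonempty_iff_ne_empty.2 hS)) (sub_eq_zero.1 h).symm

lemma W_rec (q : K) (hq : ∀ k, 0 < k → q ^ k ≠ 1) (D : Finset (V × V)) (J S : Finset V) :
    W q D J S = ∑ T ∈ S.powerset, if Ok D J S T then q ^ T.card * W q D J T else 0 := by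
  by_cases hS : S = ∅
  · subst hS
    rw [Finset.powerset_empty, Finset.sum_singleton, if_pos (ok_self D J ∅), W_empty]
    simp
  · have h1 := W_ne q hq D J S hS
    have h2 : S.ssubsets = S.powerset.erase S := rfl
    have h3 := Finset.add_sum_erase S.powerset
      (fun T => if Ok D J S T then q ^ T.card * W q D J T else 0) (Finset.mem_powerset_self S)
    rw [← h2, ← h1] at h3
    rw [← h3]
    simp only [if_pos (ok_self D J S)]
    ring

/-- the descendants of `u` in `S` -/
noncomputable def Desc (D : Finset (V × V)) (S : Finset V) (u : V) : Finset V :=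
  S.filter fun v => Relation.ReflTransGen (fun a b => (a, b) ∈ D ∧ b ∈ S) u v

lemma desc_step {D : Finset (V × V)} {S : Finset V} {u a b : V} (ha : a ∈ Desc D S u)
    (h : (a, b) ∈ D) (hb : b ∈ S) : b ∈ Desc D S u := by
  rw [Desc, Finset.mem_filter] at ha ⊢
  exact ⟨hb, ha.2.tail ⟨h, hb⟩⟩

lemma desc_self {D : Finset (V × V)} {S : Finset V} {u : V} (hu : u ∈ S) : u ∈ Desc D S u := by
  rw [Desc, Finset.mem_filter]
  exact ⟨hu, Relation.ReflTransGen.refl⟩

lemma desc_sub (D : Finset (V × V)) (S : Finset V) (u : V) : Desc D S u ⊆ S :=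
  Finset.filter_subset _ _

lemma desc_last {D : Finset (V × V)} {S : Finset V} {u v : V} (hu : u ∈ S)
    (hv : v ∈ Desc D S u) : v = u ∨ ∃ w ∈ Desc D S u, (w, v) ∈ D := by
  rw [Desc, Finset.mem_filter] at hv
  rcases Relation.ReflTransGen.cases_tail hv.2 with h | ⟨w, h1, h2⟩
  · exact Or.inl h
  · right
    refine ⟨w, ?_, h2.1⟩
    rw [Desc, Finset.mem_filter]
    refine ⟨?_, h1⟩
    rcases Relation.ReflTransGen.cases_tail h1 with h | ⟨w', _, h4⟩
    · rw [h]; exact hu
    · exact h4.2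

/-- being bottom -/
def Bot (D : Finset (V × V)) (J S : Finset V) (u : V) : Prop :=
  ∀ v ∈ Desc D S u, v ∈ J → v = u

/-- the truncated sums -/
noncomputable def A (q : K) (D : Finset (V × V)) (J : Finset V) (g : V → ℕ) (S : Finset V)
    (t : ℕ) : K :=
  ∑ T ∈ S.powerset.filter (fun T => Ok D J S T ∧ ∀ v, v ∈ S → v ∉ T → v ∈ J → g v ≤ t),
    q ^ T.card * W q D J T

lemma not_mem_of_desc {D : Finset (V × V)} {S T : Finset V} {u v : V} (hu : u ∈ S)
    (hup : Up D S T) (huT : u ∉ T) (hv : v ∈ Desc D S u) : v ∉ T := by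
  rw [Desc, Finset.mem_filter] at hv
  have h : v ∈ S ∧ v ∉ T := by
    refine Relation.ReflTransGen.head_induction_on
      (motive := fun a _ => a ∈ S → a ∉ T → v ∈ S ∧ v ∉ T) hv.2 ?_ ?_ hu huT
    · exact fun h1 h2 => ⟨h1, h2⟩
    · intro a c h1 _ ih h3 h4
      exact ih h1.2 fun h5 => h4 (hup a c h1.1 h3 h5)
  exact h.2

section lab

variable (q : K) (hq : ∀ k, 0 < k → q ^ k ≠ 1) (D : Finset (V × V)) (J : Finset V) (g : V → ℕ)
  (gi : Function.Injective g) (hg : ∀ a b, (a, b) ∈ D → g a < g b)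

include hg in
lemma desc_le {S : Finset V} {u v : V} (hv : v ∈ Desc D S u) : g u ≤ g v := by
  rw [Desc, Finset.mem_filter] at hv
  have h := hv.2
  clear hv
  induction h with
  | refl => exact le_refl _
  | tail _ h2 ih => exact ih.trans (hg _ _ h2.1).le

/-- `u` is the last element of `J` outside `T` -/
def Mx (J : Finset V) (g : V → ℕ) (S : Finset V) (u : V) (T : Finset V) : Prop :=
  u ∈ J ∧ u ∈ S ∧ u ∉ T ∧ ∀ v, v ∈ S → v ∉ T → v ∈ J → g v ≤ g u

include gi hg in
lemma A_rec (S : Finset V) (t : ℕ) : A q D J g S t = q ^ S.card * W q D J S +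
    ∑ u ∈ S.filter (fun u => u ∈ J ∧ Bot D J S u ∧ g u ≤ t), A q D J g (S \ Desc D S u) (g u) := by
  set C : Finset V → Prop := fun T => Ok D J S T ∧ ∀ v, v ∈ S → v ∉ T → v ∈ J → g v ≤ t with hC
  set Y : Finset (Finset V) := (S.powerset.filter C).erase S with hY
  have hYm : ∀ T, T ∈ Y ↔ T ≠ S ∧ T ⊆ S ∧ C T := by
    intro T
    rw [hY, Finset.mem_erase, Finset.mem_filter, Finset.mem_powerset]
  have hCS : C S := ⟨ok_self D J S, fun v h1 h2 => absurd h1 h2⟩
  have h1 : A q D J g S t = q ^ S.card * W q D J S + ∑ T ∈ Y, q ^ T.card * W q D J T := by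
    rw [A, hY]
    rw [Finset.add_sum_erase (S.powerset.filter C) (fun T => q ^ T.card * W q D J T)]
    rw [Finset.mem_filter]
    exact ⟨Finset.mem_powerset_self S, hCS⟩
  have h2 : ∀ u ∈ S.filter (fun u => u ∈ J ∧ Bot D J S u ∧ g u ≤ t),
      A q D J g (S \ Desc D S u) (g u) =
        ∑ T ∈ Y.filter (Mx J g S u), q ^ T.card * W q D J T := by
    intro u hu
    rw [Finset.mem_filter] at hu
    obtain ⟨huS, huJ, hbot, hgt⟩ := hu
    rw [A]
    refine Finset.sum_congr ?_ fun _ _ => rfl
    ext T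
    rw [Finset.mem_filter, Finset.mem_filter, hYm, Finset.mem_powerset]
    constructor
    · rintro ⟨a1, ⟨a2, a3⟩, a4⟩
      have b1 : u ∉ T := fun h => (Finset.mem_sdiff.1 (a1 h)).2 (desc_self huS)
      have b2 : ∀ v, v ∈ S → v ∉ T → v ∈ J → g v ≤ g u := by
        intro v h3 h4 h5
        by_cases h6 : v ∈ Desc D S u
        · rw [hbot v h6 h5]
        · exact a4 v (Finset.mem_sdiff.2 ⟨h3, h6⟩) h4 h5
      refine ⟨⟨?_, a1.trans Finset.sdiff_subset, ⟨?_, ?_⟩, fun v h3 h4 h5 => (b2 v h3 h4 h5).trans hgt⟩,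
        huJ, huS, b1, b2⟩
      · rintro rfl
        exact b1 huS
      · intro a b h3 h4 h5
        have h6 := Finset.mem_sdiff.1 (a1 h5)
        refine a2 a b h3 (Finset.mem_sdiff.2 ⟨h4, fun h7 => h6.2 (desc_step h7 h3 h6.1)⟩) h5
      · intro v h3 h4 h5
        by_cases h6 : v ∈ Desc D S u
        · rcases desc_last huS h6 with h7 | ⟨w, h7, h8⟩
          · exact absurd (h7 ▸ huJ) h5
          · exact ⟨w, desc_sub D S u h7, fun h9 => (Finset.mem_sdiff.1 (a1 h9)).2 h7, h8⟩
        · obtain ⟨w, h7, h8, h9⟩ := a3 v (Finset.mem_sdiff.2 ⟨h3, h6⟩) h4 h5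
          exact ⟨w, (Finset.mem_sdiff.1 h7).1, h8, h9⟩
    · rintro ⟨⟨a1, a2, ⟨a3, a4⟩, a5⟩, b1, b2, b3, b4⟩
      refine ⟨?_, ⟨?_, ?_⟩, ?_⟩
      · intro x hx
        exact Finset.mem_sdiff.2 ⟨a2 hx, fun h => not_mem_of_desc huS a3 b3 h hx⟩
      · intro a b h3 h4 h5
        exact a3 a b h3 (Finset.mem_sdiff.1 h4).1 h5
      · intro v h3 h4 h5
        obtain ⟨w, h7, h8, h9⟩ := a4 v (Finset.mem_sdiff.1 h3).1 h4 h5
        exact ⟨w, Finset.mem_sdiff.2 ⟨h7, fun h =>
          (Finset.mem_sdiff.1 h3).2 (desc_step h h9 (Finset.mem_sdiff.1 h3).1)⟩, h8, h9⟩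
      · intro v h3 h4 h5
        exact b4 v (Finset.mem_sdiff.1 h3).1 h4 h5
  rw [h1, Finset.sum_congr rfl h2]
  congr 1
  rw [Finset.sum_comm' (t' := Y)
    (s' := fun T => (S.filter (fun u => u ∈ J ∧ Bot D J S u ∧ g u ≤ t)).filter
      (fun u => Mx J g S u T)) (h := by
        intro x y
        simp only [Finset.mem_filter]
        tauto)]
  refine Finset.sum_congr rfl ?_
  intro T hT
  obtain ⟨h3, h4, ⟨h5, h6⟩, h7⟩ := (hYm T).1 hT
  -- an element of `J` outside `T`
  have hne : (S \ T).Nonempty := by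
    rw [Finset.nonempty_iff_ne_empty]
    intro h
    exact h3 (Finset.Subset.antisymm h4 (Finset.sdiff_eq_empty_iff_subset.1 h))
  obtain ⟨v, hv, hvmin⟩ := Finset.exists_min_image (S \ T) g hne
  have hvJ : v ∈ J := by
    by_contra hvJ
    obtain ⟨w, k1, k2, k3⟩ := h6 v (Finset.mem_sdiff.1 hv).1 (Finset.mem_sdiff.1 hv).2 hvJ
    have := hvmin w (Finset.mem_sdiff.2 ⟨k1, k2⟩)
    have := hg w v k3
    omega
  obtain ⟨u, hu, humax⟩ := Finset.exists_max_image ((S \ T).filter (fun v => v ∈ J)) g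
    ⟨v, Finset.mem_filter.2 ⟨hv, hvJ⟩⟩
  rw [Finset.mem_filter, Finset.mem_sdiff] at hu
  obtain ⟨⟨k1, k2⟩, k3⟩ := hu
  have hmax : ∀ v, v ∈ S → v ∉ T → v ∈ J → g v ≤ g u := fun v l1 l2 l3 =>
    humax v (Finset.mem_filter.2 ⟨Finset.mem_sdiff.2 ⟨l1, l2⟩, l3⟩)
  have hs : (S.filter (fun u => u ∈ J ∧ Bot D J S u ∧ g u ≤ t)).filter
      (fun u => Mx J g S u T) = {u} := by
    ext x
    rw [Finset.mem_filter, Finset.mem_filter, Finset.mem_singleton]
    constructor
    · rintro ⟨_, l1, l2, l3, l4⟩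
      exact gi (le_antisymm (hmax x l2 l3 l1) (l4 u k1 k2 k3))
    · rintro rfl
      refine ⟨⟨k1, k3, ?_, h7 x k1 k2 k3⟩, k3, k1, k2, hmax⟩
      intro y hy hyJ
      have l1 := not_mem_of_desc k1 h5 k2 hy
      have l2 := hmax y (desc_sub D S x hy) l1 hyJ
      have l3 := desc_le D g hg hy
      exact gi (le_antisymm l2 l3)
  rw [hs, Finset.sum_singleton]

include hq in
lemma A_top (S : Finset V) (t : ℕ) (ht : ∀ v ∈ S, g v ≤ t) : A q D J g S t = W q D J S := by
  rw [W_rec q hq D J S, A, Finset.sum_filter]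
  refine Finset.sum_congr rfl fun T _ => ?_
  have : (Ok D J S T ∧ ∀ v, v ∈ S → v ∉ T → v ∈ J → g v ≤ t) ↔ Ok D J S T :=
    ⟨fun h => h.1, fun h => ⟨h, fun v hv _ _ => ht v hv⟩⟩
  simp only [this]

end lab

/-- `[n]_q` -/
noncomputable def qi (q : K) (n : ℕ) : K := ∑ i ∈ Finset.range n, q ^ i

/-- `[n]_q!` -/
noncomputable def qf (q : K) (n : ℕ) : K := ∏ i ∈ Finset.range n, qi q (i + 1)

lemma one_sub_mul_qi (q : K) (n : ℕ) : (1 - q) * qi q n = 1 - q ^ n := by
  rw [qi]; exact mul_neg_geom_sum q n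

lemma qi_mem (P : Subsemiring K) (q : K) (hqP : q ∈ P) (n : ℕ) : qi q n ∈ P :=
  sum_mem fun _ _ => pow_mem hqP _

lemma qf_split (P : Subsemiring K) (q : K) (hqP : q ∈ P) {m n : ℕ} (h : m ≤ n) :
    ∃ r ∈ P, qf q n = qf q m * r :=
  ⟨∏ i ∈ Finset.Ico m n, qi q (i + 1), prod_mem fun _ _ => qi_mem P q hqP _,
    (Finset.prod_range_mul_prod_Ico _ h).symm⟩

theorem A_pos (P : Subsemiring K) (q : K) (hqP : q ∈ P) (hq : ∀ k, 0 < k → q ^ k ≠ 1)
    (D : Finset (V × V)) (J : Finset V) (g : V → ℕ)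
    (gi : Function.Injective g) (hg : ∀ a b, (a, b) ∈ D → g a < g b) :
    ∀ (n : ℕ) (S : Finset V), S.card = n → 
      (∀ t, (1 - q) ^ (S ∩ J).card * qf q S.card * A q D J g S t ∈ P) ∧
        (1 - q) ^ (S ∩ J).card * qf q S.card * W q D J S ∈ P := by
  intro n
  induction n using Nat.strong_induction_on with
  | _ n ih =>
    intro S hn
    by_cases hS : S = ∅
    · subst hS
      refine ⟨fun t => ?_, ?_⟩
      · rw [A_rec q D J g gi hg]
        simp [qf, W_empty]
      · simp [qf, W_empty]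
    · have hpos : 0 < S.card := Finset.card_pos.2 (Finset.nonempty_iff_ne_empty.2 hS)
      have hne : (1 - q ^ S.card) ≠ 0 := fun h => hq S.card hpos (sub_eq_zero.1 h).symm
      set U : Finset V := S.filter (fun u => u ∈ J ∧ Bot D J S u) with hU
      set b : V → K := fun u => (1 - q) ^ ((S \ Desc D S u) ∩ J).card * qf q (S.card - 1) *
        A q D J g (S \ Desc D S u) (g u) with hb
      have hbP : ∀ u ∈ U, b u ∈ P := by
        intro u hu
        rw [hU, Finset.mem_filter] at hu
        have h1 : (S \ Desc D S u).card < S.card := by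
          apply Finset.card_lt_card
          refine ⟨Finset.sdiff_subset, fun h => ?_⟩
          exact (Finset.mem_sdiff.1 (h hu.1)).2 (desc_self hu.1)
        have h2 := (ih _ (hn ▸ h1) (S \ Desc D S u) rfl).1 (g u)
        obtain ⟨r, hr, h3⟩ := qf_split P q hqP (show (S \ Desc D S u).card ≤ S.card - 1 by omega)
        have h4 : b u = (1 - q) ^ ((S \ Desc D S u) ∩ J).card * qf q (S \ Desc D S u).card *
          A q D J g (S \ Desc D S u) (g u) * r := by
          rw [hb]; simp only; rw [h3]; ring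
        rw [h4]
        exact mul_mem h2 hr
      have hcb : ∀ u ∈ U, (1 - q) ^ (S ∩ J).card * qf q S.card * A q D J g (S \ Desc D S u) (g u) =
          (1 - q ^ S.card) * b u := by
        intro u hu
        rw [hU, Finset.mem_filter] at hu
        obtain ⟨huS, huJ, hbot⟩ := hu
        have h1 : (S ∩ J).card = ((S \ Desc D S u) ∩ J).card + 1 := by
          have h2 : (S \ Desc D S u) ∩ J = (S ∩ J).erase u := by
            ext x
            rw [Finset.mem_inter, Finset.mem_sdiff, Finset.mem_erase, Finset.mem_inter]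
            constructor
            · rintro ⟨⟨k1, k2⟩, k3⟩
              exact ⟨fun h => k2 (by rw [h]; exact desc_self huS), k1, k3⟩
            · rintro ⟨k1, k2, k3⟩
              exact ⟨⟨k2, fun h => k1 (hbot x h k3)⟩, k3⟩
          rw [h2]
          exact (Finset.card_erase_add_one (Finset.mem_inter.2 ⟨huS, huJ⟩)).symm
        have h3 : qf q S.card = qf q (S.card - 1) * qi q S.card := by
          obtain ⟨k, hk⟩ : ∃ k, S.card = k + 1 := ⟨S.card - 1, by omega⟩
          rw [hk, qf, Finset.prod_range_succ, Nat.add_sub_cancel, qf]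
        rw [h1, h3, hb, ← one_sub_mul_qi]
        ring
      have hWA : (1 - q ^ S.card) * W q D J S = ∑ u ∈ U, A q D J g (S \ Desc D S u) (g u) := by
        have h1 := A_rec q D J g gi hg S (S.sup g)
        rw [A_top q hq D J g S (S.sup g) (fun v hv => Finset.le_sup hv)] at h1
        have h2 : S.filter (fun u => u ∈ J ∧ Bot D J S u ∧ g u ≤ S.sup g) = U := by
          ext u
          rw [hU, Finset.mem_filter, Finset.mem_filter]
          constructor
          · rintro ⟨k1, k2, k3, _⟩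
            exact ⟨k1, k2, k3⟩
          · rintro ⟨k1, k2, k3⟩
            exact ⟨k1, k2, k3, Finset.le_sup k1⟩
        rw [h2] at h1
        linear_combination h1
      have hcW : (1 - q) ^ (S ∩ J).card * qf q S.card * W q D J S = ∑ u ∈ U, b u := by
        apply mul_left_cancel₀ hne
        rw [Finset.mul_sum, ← Finset.sum_congr rfl hcb, ← Finset.mul_sum, ← hWA]
        ring
      refine ⟨fun t => ?_, ?_⟩
      · have h1 := A_rec q D J g gi hg S t
        have h2 : S.filter (fun u => u ∈ J ∧ Bot D J S u ∧ g u ≤ t) = U.filter (fun u => g u ≤ t) := by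
          ext u
          rw [hU, Finset.mem_filter, Finset.mem_filter, Finset.mem_filter]
          tauto
        rw [h2] at h1
        have h3 : (1 - q) ^ (S ∩ J).card * qf q S.card * A q D J g S t =
            q ^ S.card * ∑ u ∈ U, b u + ∑ u ∈ U.filter (fun u => g u ≤ t),
              (1 - q ^ S.card) * b u := by
          rw [h1, ← hcW, mul_add, Finset.mul_sum]
          congr 1
          · ring
          · exact Finset.sum_congr rfl fun u hu => hcb u (Finset.mem_filter.1 hu).1
        have h4 := Finset.sum_filter_add_sum_filter_not U (fun u => g u ≤ t) b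
        have h5 : (1 - q) ^ (S ∩ J).card * qf q S.card * A q D J g S t =
            ∑ u ∈ U.filter (fun u => g u ≤ t), b u +
              q ^ S.card * ∑ u ∈ U.filter (fun u => ¬ g u ≤ t), b u := by
          rw [h3, ← h4, ← Finset.mul_sum]
          ring
        rw [h5]
        exact add_mem (sum_mem fun u hu => hbP u (Finset.mem_filter.1 hu).1)
          (mul_mem (pow_mem hqP _) (sum_mem fun u hu => hbP u (Finset.mem_filter.1 hu).1))
      · rw [hcW]
        exact sum_mem hbP

/-- positivity for one acyclic orientation -/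
theorem W_pos [Fintype V] (P : Subsemiring K) (q : K) (hqP : q ∈ P)
    (hq : ∀ k, 0 < k → q ^ k ≠ 1)
    (D : Finset (V × V)) (J S : Finset V) (f : V → ℕ) (hf : ∀ a b, (a, b) ∈ D → f a < f b) :
    (1 - q) ^ (S ∩ J).card * qf q S.card * W q D J S ∈ P := by
  set e := Fintype.equivFin V
  refine (A_pos P q hqP hq D J (fun v => f v * Fintype.card V + (e v : ℕ)) ?_ ?_ S.card S rfl).2
  · intro a b h
    simp only at h
    have h1 := (e a).2
    have h2 := (e b).2
    have h3 : f a = f b := by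
      rcases lt_trichotomy (f a) (f b) with h4 | h4 | h4
      · exfalso
        have : (f a + 1) * Fintype.card V ≤ f b * Fintype.card V := Nat.mul_le_mul_right _ h4
        rw [add_mul, one_mul] at this
        omega
      · exact h4
      · exfalso
        have : (f b + 1) * Fintype.card V ≤ f a * Fintype.card V := Nat.mul_le_mul_right _ h4
        rw [add_mul, one_mul] at this
        omega
    rw [h3] at h
    exact e.injective (Fin.ext (by omega))
  · intro a b h
    have h1 := (e a).2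
    have h4 := hf a b h
    have : (f a + 1) * Fintype.card V ≤ f b * Fintype.card V := Nat.mul_le_mul_right _ h4
    rw [add_mul, one_mul] at this
    show f a * Fintype.card V + (e a : ℕ) < f b * Fintype.card V + (e b : ℕ)
    omega

end Pool.Agent.Q95.QC
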